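import Pool.Agent.H380.BE.Hl

/-!
# Summation over the dyadic levels
-/

set_option autoImplicit false

open MeasureTheory Metric Set
open scoped ENNReal

namespace Pool.Agent.H280.BE

open Pool.Agent.W203.BE Pool.Agent.H380.BE

lemma two_zpow_rpow (k : ℤ) : (2 : ℝ≥0∞) ^ k = (2 : ℝ≥0∞) ^ (k : ℝ) :=
  (ENNReal.rpow_intCast 2 k).symm

lemma two_zpow_ne_top (k : ℤ) : (2 : ℝ≥0∞) ^ k ≠ ⊤ := by
  rw [two_zpow_rpow]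
  exact ENNReal.rpow_ne_top_of_ne_zero (by norm_num) (by norm_num)

lemma dyad_low (p : ℝ) (hp : 1 < p) (y : ℝ≥0∞) :
    y ^ p ≤ ∑' k : ℤ, ((2 : ℝ≥0∞) ^ (k + 1)) ^ p *
      ({z : ℝ≥0∞ | (2 : ℝ≥0∞) ^ k < z}.indicator 1 y) := by
  have hp0 : 0 < p := by linarith
  rcases eq_or_ne y 0 with hy0 | hy0
  · subst hy0
    rw [ENNReal.zero_rpow_of_pos hp0]
    exact zero_le
  rcases eq_or_ne y ⊤ with hyt | hyt
  · subst hyt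
    rw [ENNReal.top_rpow_of_pos hp0]
    by_contra hcon
    have hlt := not_le.mp hcon
    obtain ⟨m, hm⟩ := ENNReal.exists_nat_gt hlt.ne
    have h1 := ENNReal.le_tsum (f := fun k : ℤ => ((2 : ℝ≥0∞) ^ (k + 1)) ^ p *
      ({z : ℝ≥0∞ | (2 : ℝ≥0∞) ^ k < z}.indicator (1 : ℝ≥0∞ → ℝ≥0∞) ⊤)) ((m : ℤ))
    have hmem : (⊤ : ℝ≥0∞) ∈ {z : ℝ≥0∞ | (2 : ℝ≥0∞) ^ (m : ℤ) < z} :=
      lt_top_iff_ne_top.mpr (two_zpow_ne_top _)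
    simp only [Set.indicator_of_mem hmem, Pi.one_apply, mul_one] at h1
    have h2 : ((m : ℕ) : ℝ≥0∞) ≤ ((2 : ℝ≥0∞) ^ ((m : ℤ) + 1)) ^ p := by
      have h3 : ((m : ℕ) : ℝ≥0∞) ≤ (2 : ℝ≥0∞) ^ ((m : ℤ) + 1) := by
        have h4 : (2 : ℝ≥0∞) ^ ((m : ℤ) + 1) = (2 : ℝ≥0∞) ^ (m + 1) := by
          exact_mod_cast zpow_natCast (2 : ℝ≥0∞) (m + 1)
        rw [h4]
        have h5 : m ≤ 2 ^ (m + 1) :=
          (Nat.lt_two_pow_self).le.trans (Nat.pow_le_pow_right (by norm_num) (Nat.le_succ m))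
        exact_mod_cast h5
      have h6 : (1 : ℝ≥0∞) ≤ (2 : ℝ≥0∞) ^ ((m : ℤ) + 1) := by
        have h4 : (2 : ℝ≥0∞) ^ ((m : ℤ) + 1) = (2 : ℝ≥0∞) ^ (m + 1) := by
          exact_mod_cast zpow_natCast (2 : ℝ≥0∞) (m + 1)
        rw [h4]
        exact one_le_pow₀ (by norm_num)
      calc ((m : ℕ) : ℝ≥0∞) ≤ (2 : ℝ≥0∞) ^ ((m : ℤ) + 1) := h3
        _ = ((2 : ℝ≥0∞) ^ ((m : ℤ) + 1)) ^ (1 : ℝ) := (ENNReal.rpow_one _).symm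
        _ ≤ ((2 : ℝ≥0∞) ^ ((m : ℤ) + 1)) ^ p := ENNReal.rpow_le_rpow_of_exponent_le h6 hp.le
    exact absurd (h2.trans h1) (not_le.mpr hm)
  · obtain ⟨k, hk⟩ := ENNReal.exists_mem_Ioc_zpow hy0 hyt (y := 2) (by norm_num) (by norm_num)
    have h1 := ENNReal.le_tsum (f := fun k : ℤ => ((2 : ℝ≥0∞) ^ (k + 1)) ^ p *
      ({z : ℝ≥0∞ | (2 : ℝ≥0∞) ^ k < z}.indicator (1 : ℝ≥0∞ → ℝ≥0∞) y)) k
    have hmem : y ∈ {z : ℝ≥0∞ | (2 : ℝ≥0∞) ^ k < z} := hk.1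
    simp only [Set.indicator_of_mem hmem, Pi.one_apply, mul_one] at h1
    exact (ENNReal.rpow_le_rpow hk.2 hp0.le).trans h1

lemma dyad_term (p : ℝ) (hp : 1 < p) (n : ℕ) (y : ℝ≥0∞) (hy0 : y ≠ 0) (hyt : y ≠ ⊤) (K : ℤ)
    (hK : (2 : ℝ≥0∞) ^ K < y) (j : ℕ) :
    ((2 : ℝ≥0∞) ^ ((K + n + 1 - j : ℤ) + 1)) ^ p * ((2 : ℝ≥0∞) ^ (1 - (K + n + 1 - j : ℤ)) * y) ≤
      (2 : ℝ≥0∞) ^ ((n + 1 : ℝ) * (p - 1) + p + 1) * ((2 : ℝ≥0∞) ^ (1 - p)) ^ j * y ^ p := by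
  have h20 : (2 : ℝ≥0∞) ≠ 0 := by norm_num
  have h2t : (2 : ℝ≥0∞) ≠ ⊤ := by norm_num
  have hA : ((2 : ℝ≥0∞) ^ ((K + n + 1 - j : ℤ) + 1)) ^ p * ((2 : ℝ≥0∞) ^ (1 - (K + n + 1 - j : ℤ)) * y)
      = (2 : ℝ≥0∞) ^ ((n + 1 : ℝ) * (p - 1) + p + 1) * ((2 : ℝ≥0∞) ^ (1 - p)) ^ j *
        (((2 : ℝ≥0∞) ^ K) ^ (p - 1) * y) := by
    rw [two_zpow_rpow, two_zpow_rpow, two_zpow_rpow, ← ENNReal.rpow_mul, ← ENNReal.rpow_mul,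
      ← ENNReal.rpow_natCast, ← ENNReal.rpow_mul, ← mul_assoc, ← mul_assoc,
      ← ENNReal.rpow_add _ _ h20 h2t, ← ENNReal.rpow_add _ _ h20 h2t,
      ← ENNReal.rpow_add _ _ h20 h2t]
    have : (((K + n + 1 - j : ℤ) + 1 : ℤ) : ℝ) * p + ((1 - (K + n + 1 - j : ℤ) : ℤ) : ℝ) =
        ((n + 1 : ℝ) * (p - 1) + p + 1) + (1 - p) * (j : ℝ) + (K : ℝ) * (p - 1) := by
      push_cast
      ring
    rw [this]
  rw [hA]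
  have hB : ((2 : ℝ≥0∞) ^ K) ^ (p - 1) * y ≤ y ^ p := by
    calc ((2 : ℝ≥0∞) ^ K) ^ (p - 1) * y ≤ y ^ (p - 1) * y :=
          mul_le_mul' (ENNReal.rpow_le_rpow hK.le (by linarith)) le_rfl
      _ = y ^ (p - 1) * y ^ (1 : ℝ) := by rw [ENNReal.rpow_one]
      _ = y ^ p := by
          rw [← ENNReal.rpow_add _ _ hy0 hyt]
          ring_nf
  exact mul_le_mul' le_rfl hB

lemma dyad_up (p : ℝ) (hp : 1 < p) (n : ℕ) (y : ℝ≥0∞) (hy0 : y ≠ 0) (hyt : y ≠ ⊤) :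
    ∑' k : ℤ, ((2 : ℝ≥0∞) ^ (k + 1)) ^ p * ((2 : ℝ≥0∞) ^ (1 - k) *
      {z : ℝ≥0∞ | (2 : ℝ≥0∞) ^ (k - n - 1) < z}.indicator id y) ≤
    (2 : ℝ≥0∞) ^ ((n + 1 : ℝ) * (p - 1) + p + 1) * (1 - (2 : ℝ≥0∞) ^ (1 - p))⁻¹ * y ^ p := by
  obtain ⟨K, hK⟩ := ENNReal.exists_mem_Ioc_zpow hy0 hyt (y := 2) (by norm_num) (by norm_num)
  have hinj : Function.Injective (fun j : ℕ => (K + n + 1 - j : ℤ)) := by
    intro a b hab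
    simp only at hab
    omega
  have hsupp : Function.support (fun k : ℤ => ((2 : ℝ≥0∞) ^ (k + 1)) ^ p * ((2 : ℝ≥0∞) ^ (1 - k) *
      {z : ℝ≥0∞ | (2 : ℝ≥0∞) ^ (k - n - 1) < z}.indicator id y)) ⊆
      Set.range (fun j : ℕ => (K + n + 1 - j : ℤ)) := by
    intro k hk
    by_contra hcon
    apply hk
    have hnot : y ∉ {z : ℝ≥0∞ | (2 : ℝ≥0∞) ^ (k - n - 1) < z} := by
      intro hmem
      have h1 : (2 : ℝ≥0∞) ^ (k - n - 1) < (2 : ℝ≥0∞) ^ (K + 1) := lt_of_lt_of_le hmem hK.2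
      have h2 : k - n - 1 < K + 1 := by
        by_contra h3
        have h4 : K + 1 ≤ k - n - 1 := not_lt.mp h3
        have h5 : (2 : ℝ≥0∞) ^ (K + 1) ≤ (2 : ℝ≥0∞) ^ (k - n - 1) :=
          ENNReal.zpow_le_of_le (by norm_num) h4
        exact absurd h1 (not_lt.mpr h5)
      apply hcon
      refine ⟨(K + n + 1 - k).toNat, ?_⟩
      simp only
      rw [Int.toNat_of_nonneg (by omega)]
      ring
    simp only [Set.indicator_of_notMem hnot, mul_zero]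
  rw [← hinj.tsum_eq hsupp]
  calc ∑' j : ℕ, ((2 : ℝ≥0∞) ^ ((K + n + 1 - j : ℤ) + 1)) ^ p *
          ((2 : ℝ≥0∞) ^ (1 - (K + n + 1 - j : ℤ)) *
        {z : ℝ≥0∞ | (2 : ℝ≥0∞) ^ ((K + n + 1 - j : ℤ) - n - 1) < z}.indicator id y)
      ≤ ∑' j : ℕ, (2 : ℝ≥0∞) ^ ((n + 1 : ℝ) * (p - 1) + p + 1) * ((2 : ℝ≥0∞) ^ (1 - p)) ^ j *
          y ^ p := by
        apply ENNReal.tsum_le_tsum
        intro j
        refine le_trans ?_ (dyad_term p hp n y hy0 hyt K hK.1 j)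
        refine mul_le_mul' le_rfl (mul_le_mul' le_rfl ?_)
        exact Set.indicator_le_self' (fun _ _ => zero_le) y
    _ = (2 : ℝ≥0∞) ^ ((n + 1 : ℝ) * (p - 1) + p + 1) * (1 - (2 : ℝ≥0∞) ^ (1 - p))⁻¹ * y ^ p := by
        rw [ENNReal.tsum_mul_right, ENNReal.tsum_mul_left, ENNReal.tsum_geometric]

theorem t_DYAD : S_DYAD := by
  intro p hp n
  have hr1 : (2 : ℝ≥0∞) ^ (1 - p) < 1 :=
    ENNReal.rpow_lt_one_of_one_lt_of_neg (by norm_num) (by linarith)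
  have hD : (2 : ℝ≥0∞) ^ ((n + 1 : ℝ) * (p - 1) + p + 1) * (1 - (2 : ℝ≥0∞) ^ (1 - p))⁻¹ ≠ ⊤ := by
    apply ENNReal.mul_ne_top
    · exact ENNReal.rpow_ne_top_of_ne_zero (by norm_num) (by norm_num)
    · apply ENNReal.inv_ne_top.mpr
      exact (tsub_pos_of_lt hr1).ne'
  have hD0 : (2 : ℝ≥0∞) ^ ((n + 1 : ℝ) * (p - 1) + p + 1) * (1 - (2 : ℝ≥0∞) ^ (1 - p))⁻¹ ≠ 0 := by
    apply mul_ne_zero
    · exact (ENNReal.rpow_pos (by norm_num) (by norm_num)).ne'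
    · apply ENNReal.inv_ne_zero.mpr
      exact ne_top_of_le_ne_top ENNReal.one_ne_top tsub_le_self
  refine ⟨((2 : ℝ≥0∞) ^ ((n + 1 : ℝ) * (p - 1) + p + 1) * (1 - (2 : ℝ≥0∞) ^ (1 - p))⁻¹).toReal,
    ENNReal.toReal_pos hD0 hD, dyad_low p hp, ?_⟩
  intro y
  rw [ENNReal.ofReal_toReal hD]
  rcases eq_or_ne y 0 with hy0 | hy0
  · subst hy0
    have hz : ∀ k : ℤ, ((2 : ℝ≥0∞) ^ (k + 1)) ^ p * ((2 : ℝ≥0∞) ^ (1 - k) *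
      {z : ℝ≥0∞ | (2 : ℝ≥0∞) ^ (k - n - 1) < z}.indicator id 0) = 0 := by
      intro k
      have hnot : (0 : ℝ≥0∞) ∉ {z : ℝ≥0∞ | (2 : ℝ≥0∞) ^ (k - n - 1) < z} := by
        intro hmem
        have hmem2 : (2 : ℝ≥0∞) ^ (k - n - 1) < 0 := hmem
        exact absurd hmem2 (not_lt.mpr zero_le)
      rw [Set.indicator_of_notMem hnot, mul_zero, mul_zero]
    simp only [hz, tsum_zero]
    exact zero_le
  rcases eq_or_ne y ⊤ with hyt | hyt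
  · subst hyt
    rw [ENNReal.top_rpow_of_pos (by linarith), ENNReal.mul_top hD0]
    exact le_top
  · exact dyad_up p hp n y hy0 hyt

end Pool.Agent.H280.BE
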